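import Pool.Agent.W97.TW.Vanish
import Pool.Agent.W97.TW.NewEleven
import Pool.Agent.W97.TW.Chi7

/-!
# Two quadratic twists need not be simultaneously non-vanishing

For every newform `f` of level `1` or of prime level `N` (of any weight) and every odd quadratic
character `χ` with `χ(N) = 1`, every quadratic character `ψ` satisfies
`L(f ⊗ ψ, 1/2) L(f ⊗ χψ, 1/2) = 0`.  This applies to the discriminant `Δ` and every odd `χ`, and to
the weight `2` newform `η(z)² η(11z)²` of the elliptic curve `X_0(11)` and `χ = (-7/·)`.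
-/

set_option autoImplicit false

open UpperHalfPlane MatrixGroups CongruenceSubgroup

namespace Pool.Agent.Results.MP_d17ed7_nt.SignObstruction

open Pool.Agent.W97.TW

/-- **Negated form of Q1.** -/
theorem result :
    -- for every newform `f` of level `N`, `N = 1` or prime, and every odd quadratic character `χ`
    -- with `χ(N) = 1`, at least one of `L(f ⊗ ψ, 1/2)`, `L(f ⊗ χψ, 1/2)` vanishes for every `ψ`
    (∀ (N : ℕ) (k : ℤ) (f : CuspForm (Gamma0 N : Subgroup (GL (Fin 2) ℝ)) k),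
      (N = 1 ∨ N.Prime) → IsNewform N k f →
      ∀ χ : QuadraticCharacter, χ.χ (-1) = -1 → χ.χ N = 1 →
      ∀ ψ : QuadraticCharacter,
        (∃ L₁ : ℂ → ℂ, IsTwistedLFunction N k f ψ.χ L₁) ∧
        (∃ L₂ : ℂ → ℂ, IsTwistedLFunction N k f (χ.χ.primitive_mul ψ.χ) L₂) ∧
        ∀ L₁ L₂ : ℂ → ℂ, IsTwistedLFunction N k f ψ.χ L₁ →
          IsTwistedLFunction N k f (χ.χ.primitive_mul ψ.χ) L₂ → L₁ (1 / 2) * L₂ (1 / 2) = 0) ∧
    -- `Δ = η²⁴` is such a newform of level `1` and weight `12`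
    (∃ f : CuspForm (Gamma0 1 : Subgroup (GL (Fin 2) ℝ)) 12, IsNewform 1 12 f ∧
      ∀ z : ℍ, f z = ModularForm.eta z ^ 24) ∧
    -- `η(z)² η(11z)²` is such a newform of level `11` and weight `2`
    (∃ f : CuspForm (Gamma0 11 : Subgroup (GL (Fin 2) ℝ)) 2, IsNewform 11 2 f ∧
      ∀ z : ℍ, f z = ModularForm.eta z ^ 2 * ModularForm.eta (11 * z) ^ 2) ∧
    -- an odd quadratic character of conductor `7` with `χ(1) = χ(11) = 1`
    ∃ χ : QuadraticCharacter, χ.modulus = 7 ∧ χ.χ (-1) = -1 ∧ χ.χ 1 = 1 ∧ χ.χ 11 = 1 := by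
  refine ⟨?_, ⟨deltaForm, isNewform_delta, deltaForm_apply⟩, ⟨f11, isNewform_f11, f11_apply⟩,
    ⟨Q7, rfl, chi7_neg_one, map_one _, chi7_eleven⟩⟩
  intro N k f hN hf χ hodd hχN ψ
  have : NeZero N := by
    rcases hN with rfl | h
    · exact ⟨one_ne_zero⟩
    · exact ⟨h.ne_zero⟩
  have : NeZero χ.modulus := ⟨χ.modulus_pos.ne'⟩
  have : NeZero ψ.modulus := ⟨ψ.modulus_pos.ne'⟩
  obtain ⟨L₁, L₂, h1, h2, h3⟩ := vanish hN hf χ.χ χ.primitive χ.sq_eq_one hodd hχN ψ.χ ψ.primitive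
    ψ.sq_eq_one
  refine ⟨⟨L₁, h1⟩, ⟨L₂, h2⟩, fun L₁' L₂' h1' h2' => ?_⟩
  rw [twisted_unique h1' h1, twisted_unique h2' h2]
  exact h3

end Pool.Agent.Results.MP_d17ed7_nt.SignObstruction
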